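import Mathlib
import Pool.Agent.R338.Ab4

set_option autoImplicit false

/-!
# MP_9ec3f0_nt: truncated counting functions on powers of an elliptic curve

`K` is a number field, `E : y² = x³ + a x + b` an elliptic curve with integral coefficients,
`X = E^n`, `K_X = 0` and `D` is the sum of the pullbacks of the origin under the `n` projections
(a reduced divisor with simple normal crossings, and ample).
-/

open WeierstrassCurve NumberField Height

namespace Pool.Agent.Results.MP_9ec3f0_nt.AbelianExceptionalCurves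

/-- The curve `y² = x³ + a x + b`. -/
def crv {K : Type} [Field K] (a b : K) : WeierstrassCurve K :=
  { a₁ := 0, a₂ := 0, a₃ := 0, a₄ := a, a₆ := b }

/-- The points `E(K)`, with the origin. -/
abbrev Pt {K : Type} [Field K] (a b : K) : Type := (crv a b).toAffine.Point

/-- The `x`-coordinate of a point (`0` at the origin). -/
def xco {K : Type} [Field K] {a b : K} : Pt a b → K
  | .zero => 0
  | .some x _ _ => x

/-- The finite places `v` outside `S` at which a coordinate of `p` reduces to the origin, i.e.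
`|x(p i)|_v > 1` for some `i`. -/
def bad {K : Type} [Field K] [NumberField K] {n : ℕ} {a b : K} (S : Set (FinitePlace K))
    (p : Fin n → Pt a b) : Set (FinitePlace K) :=
  {v | v ∉ S ∧ ∃ i, 1 < v (xco (p i))}

/-- The truncated counting function `N_S^{(1)}(D, p)`: the sum of `log N_v` over the (finitely
many) finite places `v ∉ S` with `λ_{D,v}(p) > 0`. -/
noncomputable def truncCount {K : Type} [Field K] [NumberField K] {n : ℕ} {a b : K}
    (S : Set (FinitePlace K)) (p : Fin n → Pt a b) : ℝ :=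
  ∑ᶠ v ∈ bad S p, Real.log (Ideal.absNorm v.maximalIdeal.asIdeal)

/-- The height `h_D(p) = ∑ h_x(p i) / 2`, relative to `K`. -/
noncomputable def height {K : Type} [Field K] [NumberField K] {n : ℕ} {a b : K}
    (p : Fin n → Pt a b) : ℝ :=
  (∑ i, logHeight₁ (xco (p i))) / 2

theorem bad_finite {K : Type} [Field K] [NumberField K] {n : ℕ} {a b : K}
    (S : Set (FinitePlace K)) (p : Fin n → Pt a b) : (bad S p).Finite :=
  Pool.Agent.R338.Ab.fin_N1 (a := a) (b := b) S p

theorem result {K : Type} [Field K] [NumberField K] [DecidableEq K] {a b : K}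
    (ha : IsIntegral ℤ a) (hb : IsIntegral ℤ b) (hab : 4 * a ^ 3 + 27 * b ^ 2 ≠ 0)
    (hE : ∃ Q : Pt a b, ¬ IsOfFinAddOrder Q) {n : ℕ} (hn : 2 ≤ n) (S : Set (FinitePlace K)) :
    -- the curves `{(m₁ P, ..., mₙ P)}` with `ε ∑ mᵢ² < n - 1` are exceptional
    (∀ (m : Fin n → ℤ) (ε c : ℝ), (∀ i, m i ≠ 0) → 0 ≤ ε → ε * ∑ i, (m i : ℝ) ^ 2 < (n : ℝ) - 1 →
      {P : Pt a b | (∀ i, m i • P ≠ 0) ∧
        truncCount S (fun i => m i • P) + ε * height (fun i => m i • P) + c <
          height (fun i => m i • P)}.Infinite) ∧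
    -- a proper closed subset of degree at most `d` in each `xᵢ`, `ε n (d + 1)² < n - 1`,
    -- does not contain the exceptional points
    (∀ (d : ℕ) (G : MvPolynomial (Fin n) K) (ε c : ℝ), G ≠ 0 → (∀ i, G.degreeOf i ≤ d) →
      0 ≤ ε → ε * (n * ((d : ℝ) + 1) ^ 2) < (n : ℝ) - 1 →
      {p : Fin n → Pt a b | (∀ i, p i ≠ 0) ∧ MvPolynomial.eval (fun i => xco (p i)) G ≠ 0 ∧
        truncCount S p + ε * height p + c < height p}.Infinite) ∧
    -- no error term `o(h_D)` is possible, whatever the proper closed subset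
    (∀ (G : MvPolynomial (Fin n) K) (ψ : ℝ → ℝ), G ≠ 0 →
      (∀ η : ℝ, 0 < η → ∃ t₀ : ℝ, ∀ t, t₀ ≤ t → ψ t ≤ η * t) →
      {p : Fin n → Pt a b | (∀ i, p i ≠ 0) ∧ MvPolynomial.eval (fun i => xco (p i)) G ≠ 0 ∧
        truncCount S p + ψ (height p) < height p}.Infinite) := by
  obtain ⟨Q, hQ⟩ := hE
  refine ⟨?_, ?_, ?_⟩
  · intro m ε c hm hε hs
    exact Pool.Agent.R338.Ab.part1 (by omega) ha hb hab (Q := Q) hQ S m ε hm hε hs c
  · intro d G ε c hG hd hε hs
    exact Pool.Agent.R338.Ab.part2 (by omega) ha hb hab (Q := Q) hQ S d G ε hG hd hε hs c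
  · intro G ψ hG hψ
    exact Pool.Agent.R338.Ab.part3 hn ha hb hab (Q := Q) hQ S G hG ψ hψ

end Pool.Agent.Results.MP_9ec3f0_nt.AbelianExceptionalCurves
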