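import Mathlib
import Pool.Agent.R366.UC.Count
import Pool.Agent.R366.UC.LowP

/-!
# Hyperplanes in general position: the truncated inequality over all extensions of all degrees, with
# absolute constants

Let `k` be a number field and `D = H_1 + … + H_r` a divisor of `r ≥ m + 1` hyperplanes in general
position in `ℙ^m` over `k`. All number fields `K ⊇ k`, of all degrees `[K : ℚ] = n`, are considered
at once: the constants below depend only on the hyperplanes and on `θ`, `c`, `δ`, and not on `K` or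
`n`. Heights and counting functions are the absolute ones. For `θ < r` we prove that at most
`(C B ^ (e + δ)) ^ n` of the `K`-points `P` of `ℙ^m` of height at most `log B`, not on `D`, have
`N_S^{(1)}(D, P) + ∑_{v ∈ S} log N_v ≤ θ h(P) + c` for some finite set `S` of places of `K`. Here
the exponent `e = expo m r θ` is smaller than `m + 1`, whereas there are at least
`(B ^ (m + 1 - η) / (C δ_K ^ ((m + 3) / 2 + η))) ^ n` points of height at most `log B` which are not
on `D` if `B ≥ C δ_K ^ 2`, where `δ_K` is the root discriminant. For `θ = r - m - 1` the inequality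
`N_S^{(1)}(D, P) ≥ θ h(P) - O(1)` is the one of the conjecture for the pair `(ℙ^m, D)`.
-/

set_option autoImplicit false

open NumberField Height Finset LinearAlgebra.Projectivization
open scoped Classical

namespace Pool.Agent.Results.MP_9ec3f0_nt.AllFieldsAllDegrees

open Pool.Agent.H57R3.VJ Pool.Agent.R366.UC

/-- the exponent -/
noncomputable def expo (m r : ℕ) (θ : ℝ) : ℝ :=
  min (θ * (1 - ((r - m).choose (m + 1) : ℝ) / (r.choose (m + 1) : ℝ)))
    (((m : ℝ) + 1) * (1 - (m : ℝ) * ((r : ℝ) - θ) / ((r : ℝ) * ((r : ℝ) - 1))))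

/-- the absolute logarithmic height of a point of projective space -/
noncomputable def height {K : Type} [Field K] [NumberField K] {m : ℕ}
    (P : ℙ K (Fin (m + 1) → K)) : ℝ :=
  Real.log P.mulHeight / Module.finrank ℚ K

/-- The logarithm of the norm of a finite place. -/
noncomputable def logNorm {K : Type} [Field K] [NumberField K] (v : FinitePlace K) : ℝ :=
  Real.log (Ideal.absNorm v.maximalIdeal.asIdeal)

/-- The value at `P` of the linear form with coefficients `b`, at the chosen representative of `P`. -/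
noncomputable def value {K : Type} [Field K] {m : ℕ} (b : Fin (m + 1) → K)
    (P : ℙ K (Fin (m + 1) → K)) : K := ∑ j, b j * P.rep j

/-- The truncated counting function `N_S^{(1)}(D, P) / [K : ℚ]` of the hyperplanes `a_i = 0`: the
sum of `log N_v / [K : ℚ]` over the finite places `v ∉ S` at which the local height
`-log (|a_i(P)|_v / (|a_i|_v |P|_v))` of one of the hyperplanes is positive. -/
noncomputable def truncated {K : Type} [Field K] [NumberField K] {m r : ℕ}
    (S : Finset (FinitePlace K)) (a : Fin r → Fin (m + 1) → K) (P : ℙ K (Fin (m + 1) → K)) : ℝ :=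
  (∑ᶠ v : FinitePlace K,
    if v ∉ S ∧ ∃ i, v (value (a i) P) < (⨆ j, v (a i j)) * ⨆ j, v (P.rep j) then logNorm v else 0) /
      Module.finrank ℚ K

/-- the coefficients of the hyperplanes, in the extension `K` of `k` -/
def baseChange {k : Type} [Field k] (K : Type) [Field K] [Algebra k K] {m r : ℕ}
    (a : Fin r → Fin (m + 1) → k) : Fin r → Fin (m + 1) → K :=
  fun i j => algebraMap k K (a i j)

/-- the root discriminant -/
noncomputable def rootDisc (K : Type) [Field K] [NumberField K] : ℝ :=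
  |(NumberField.discr K : ℝ)| ^ (1 / (Module.finrank ℚ K : ℝ))

/-- the `K`-points off the hyperplanes, of absolute height at most `log B` -/
def Pts {k : Type} [Field k] (K : Type) [Field K] [NumberField K] [Algebra k K] {m r : ℕ}
    (a : Fin r → Fin (m + 1) → k) (B : ℝ) : Set (ℙ K (Fin (m + 1) → K)) :=
  {P | (∀ i, value (baseChange K a i) P ≠ 0) ∧ height P ≤ Real.log B}

/-- the points of `Pts` for which `N_S^{(1)}(D, P) + ∑_{v ∈ S} log N_v ≤ θ h(P) + c` (everything
divided by `[K : ℚ]`) for some finite set `S` of finite places -/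
def Exc {k : Type} [Field k] (K : Type) [Field K] [NumberField K] [Algebra k K] {m r : ℕ}
    (a : Fin r → Fin (m + 1) → k) (θ c B : ℝ) : Set (ℙ K (Fin (m + 1) → K)) :=
  {P | P ∈ Pts K a B ∧ ∃ S : Finset (FinitePlace K),
    truncated S (baseChange K a) P + (∑ v ∈ S, logNorm v) / Module.finrank ℚ K ≤ θ * height P + c}

/-! ### Auxiliary lemmas -/

lemma choose_id (m k : ℕ) (hk : k ≤ m) :
    ((m + 2).choose (k + 2) : ℝ) * ((k : ℝ) + 2) * ((k : ℝ) + 1) =
      ((m : ℝ) + 2) * ((m : ℝ) + 1) * (m.choose k : ℝ) ∧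
    (m.choose (k + 1) : ℝ) * ((k : ℝ) + 1) = (m.choose k : ℝ) * ((m : ℝ) - k) := by
  have h1 := Nat.add_one_mul_choose_eq (m + 1) (k + 1)
  have h2 := Nat.add_one_mul_choose_eq m k
  have h3 := Nat.choose_succ_right_eq m k
  have h1' : ((m : ℝ) + 2) * ((m + 1).choose (k + 1) : ℝ) =
      ((m + 2).choose (k + 2) : ℝ) * ((k : ℝ) + 2) := by
    have : (((m + 1 + 1) * (m + 1).choose (k + 1) : ℕ) : ℝ) =
        (((m + 1 + 1).choose (k + 1 + 1) * (k + 1 + 1) : ℕ) : ℝ) := by
      exact_mod_cast h1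
    push_cast at this
    have e1 : m + 1 + 1 = m + 2 := rfl
    have e2 : k + 1 + 1 = k + 2 := rfl
    rw [e1, e2] at this
    linear_combination this
  have h2' : ((m : ℝ) + 1) * (m.choose k : ℝ) = ((m + 1).choose (k + 1) : ℝ) * ((k : ℝ) + 1) := by
    have : (((m + 1) * m.choose k : ℕ) : ℝ) = (((m + 1).choose (k + 1) * (k + 1) : ℕ) : ℝ) := by
      exact_mod_cast h2
    push_cast at this
    linear_combination this
  refine ⟨?_, ?_⟩
  · linear_combination (-((k : ℝ) + 1)) * h1' + (-((m : ℝ) + 2)) * h2'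
  · have : ((m.choose (k + 1) * (k + 1) : ℕ) : ℝ) = ((m.choose k * (m - k) : ℕ) : ℝ) := by
      exact_mod_cast h3
    push_cast [Nat.cast_sub hk] at this
    exact this

theorem northcott {ι K : Type} [Finite ι] [Field K] [NumberField K] (H : ℝ) :
    {P : ℙ K (ι → K) | P.mulHeight ≤ H}.Finite := by
  classical
  have hfin : {y : ι → K | ∀ i, Height.mulHeight₁ (y i) ≤ H}.Finite := by
    have := Set.Finite.pi' (t := fun _ : ι => {x : K | Height.mulHeight₁ x ≤ H})
      (fun _ => NumberField.finite_setOfPred_mulHeight₁_le K H)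
    exact this
  by_cases hne : Nonempty (ℙ K (ι → K))
  · obtain ⟨P0⟩ := hne
    let f : (ι → K) → ℙ K (ι → K) := fun y => if h : y ≠ 0 then Projectivization.mk K y h else P0
    refine (hfin.image f).subset ?_
    intro P hP
    obtain ⟨k, hk⟩ := Function.ne_iff.mp P.rep_nonzero
    have hk' : P.rep k ≠ 0 := hk
    have hy : (fun i => P.rep i / P.rep k) ≠ 0 := by
      intro h
      have := congrFun h k
      simp [hk'] at this
    refine ⟨fun i => P.rep i / P.rep k, ?_, ?_⟩
    · intro i
      have h1 : Height.mulHeight₁ (P.rep i / P.rep k) = Height.mulHeight (P.rep ∘ ![i, k]) := by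
        rw [Height.mulHeight₁_div_eq_mulHeight]
        congr 1
        funext j
        fin_cases j <;> rfl
      rw [h1]
      refine (Height.mulHeight_comp_le ![i, k] P.rep).trans ?_
      have h2 : P.mulHeight = Height.mulHeight P.rep := by
        conv_lhs => rw [← P.mk_rep]
        exact Projectivization.mulHeight_mk _
      rw [← h2]
      exact hP
    · simp only [f]
      rw [dif_pos hy]
      conv_rhs => rw [← P.mk_rep]
      rw [Projectivization.mk_eq_mk_iff']
      refine ⟨(P.rep k)⁻¹, ?_⟩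
      funext i
      simp only [Pi.smul_apply, smul_eq_mul]
      rw [div_eq_inv_mul]
  · exact Set.Finite.subset Set.finite_empty (fun P _ => (hne ⟨P⟩).elim)

section One

variable {k : Type} [Field k] {K : Type} [Field K] [NumberField K] [Algebra k K] {m r : ℕ}

lemma n_pos : (0 : ℝ) < (Module.finrank ℚ K : ℝ) := by
  have := Pool.Agent.Y733.UD.finrank_one_le K
  linarith

lemma mh_rep (P : ℙ K (Fin (m + 1) → K)) : P.mulHeight = mulHeight P.rep := by
  conv_lhs => rw [← P.mk_rep]
  rw [Projectivization.mulHeight_mk]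

lemma height_mul (P : ℙ K (Fin (m + 1) → K)) :
    (Module.finrank ℚ K : ℝ) * height P = Real.log (mulHeight P.rep) := by
  unfold height
  rw [mh_rep, mul_div_cancel₀]
  exact (n_pos (K := K)).ne'

lemma value_eq (b : Fin (m + 1) → K) (P : ℙ K (Fin (m + 1) → K)) : value b P = lin b P.rep := rfl

lemma trunc_mul (S : Finset (FinitePlace K)) (a : Fin r → Fin (m + 1) → K)
    (P : ℙ K (Fin (m + 1) → K)) :
    (Module.finrank ℚ K : ℝ) * truncated S a P = N1 S a P.rep := by
  unfold truncated N1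
  rw [mul_div_cancel₀ _ (n_pos (K := K)).ne']
  rfl

lemma fin_Pts (a : Fin r → Fin (m + 1) → k) (B : ℝ) : (Pts K a B).Finite := by
  refine (northcott (ι := Fin (m + 1)) (K := K)
    (Real.exp (Module.finrank ℚ K * Real.log B))).subset ?_
  intro P hP
  have h1 := height_mul P
  have h2 : (Module.finrank ℚ K : ℝ) * height P ≤ Module.finrank ℚ K * Real.log B :=
    mul_le_mul_of_nonneg_left hP.2 (n_pos (K := K)).le
  rw [h1, ← mh_rep] at h2
  have h3 : 0 < P.mulHeight := by rw [mh_rep]; positivity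
  show P.mulHeight ≤ _
  rwa [← Real.log_le_iff_le_exp h3]

lemma N1_le (S : Finset (FinitePlace K)) {a : Fin r → Fin (m + 1) → K} (ha0 : ∀ i, a i ≠ 0)
    {x : Fin (m + 1) → K} (hx : x ≠ 0) (hl : ∀ i, lin (a i) x ≠ 0) :
    N1 ∅ a x ≤ N1 S a x + ∑ v ∈ S, Real.log (NN v) := by
  have hfin : (⋃ i, {v : FinitePlace K | Meets (a i) x v}).Finite :=
    Set.finite_iUnion fun i => meets_fin (ha0 i) hx (hl i)
  have hL : ∀ v : FinitePlace K, 0 ≤ Real.log (NN v) := fun v =>
    Real.log_nonneg (by linarith [two_le_NN v])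
  set F := hfin.toFinset ∪ S with hF
  have hsub : ∀ T : Finset (FinitePlace K), N1 T a x =
      ∑ v ∈ F, if v ∉ T ∧ ∃ i, Meets (a i) x v then Real.log (NN v) else 0 := by
    intro T
    unfold N1
    rw [finsum_eq_sum_of_support_subset _ (s := F) (by
      intro v hv
      rw [Function.mem_support] at hv
      have h1 : v ∉ T ∧ ∃ i, Meets (a i) x v := by
        by_contra hne
        exact hv (if_neg hne)
      have h2 : v ∈ hfin.toFinset := by
        rw [Set.Finite.mem_toFinset, Set.mem_iUnion]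
        exact h1.2
      exact Finset.mem_coe.2 (Finset.mem_union_left _ h2))]
  rw [hsub ∅, hsub S]
  have h3 : ∑ v ∈ S, Real.log (NN v) = ∑ v ∈ F, if v ∈ S then Real.log (NN v) else 0 := by
    rw [← Finset.sum_filter]
    congr 1
    ext v
    rw [Finset.mem_filter]
    exact ⟨fun h => ⟨Finset.mem_union_right _ h, h⟩, fun h => h.2⟩
  rw [h3, ← Finset.sum_add_distrib]
  refine Finset.sum_le_sum fun v _ => ?_
  have := hL v
  by_cases h1 : ∃ i, Meets (a i) x v
  · by_cases h2 : v ∈ S
    · rw [if_pos ⟨Finset.notMem_empty v, h1⟩, if_neg (fun h => h.1 h2), if_pos h2, zero_add]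
    · rw [if_pos ⟨Finset.notMem_empty v, h1⟩, if_pos ⟨h2, h1⟩, if_neg h2, add_zero]
  · rw [if_neg (fun h => h1 h.2), if_neg (fun h => h1 h.2), zero_add]
    split_ifs
    · exact this
    · exact le_rfl

end One

lemma expo_form {m r : ℕ} (hm : 1 ≤ m) (hr : m + 1 ≤ r) (θ : ℝ) : ∃ α β : ℝ, 0 ≤ α ∧ 0 ≤ β ∧
    (∀ t : ℕ, 1 ≤ t → t ≤ m →
      (r.choose (m + 1) : ℝ) - ((r - t).choose (m + 1) : ℝ) ≤ α + β * t) ∧
    expo m r θ = (α * θ + β * r) / (r.choose (m + 1) : ℝ) := by
  have hr2 : (2 : ℝ) ≤ r := by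
    have : 2 ≤ r := by omega
    exact_mod_cast this
  have hm1 : (1 : ℝ) ≤ m := by exact_mod_cast hm
  have hchpos : (0 : ℝ) < (r.choose (m + 1) : ℝ) := by exact_mod_cast Nat.choose_pos hr
  rcases min_choice (θ * (1 - ((r - m).choose (m + 1) : ℝ) / (r.choose (m + 1) : ℝ)))
      (((m : ℝ) + 1) * (1 - (m : ℝ) * ((r : ℝ) - θ) / ((r : ℝ) * ((r : ℝ) - 1)))) with hmin | hmin
  · refine ⟨(r.choose (m + 1) : ℝ) - ((r - m).choose (m + 1) : ℝ), 0, ?_, le_rfl,
      fun t _ ht => major_one r m t ht, ?_⟩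
    · have h1 : (r - m).choose (m + 1) ≤ r.choose (m + 1) := Nat.choose_le_choose _ (by omega)
      have h2 : ((r - m).choose (m + 1) : ℝ) ≤ (r.choose (m + 1) : ℝ) := by exact_mod_cast h1
      linarith
    · unfold expo
      rw [hmin]
      field_simp
      ring
  · refine ⟨((r - 2).choose (m - 1) : ℝ), ((r - 2).choose m : ℝ), Nat.cast_nonneg _,
      Nat.cast_nonneg _, fun t ht htm => major_two r m hm hr t ht htm, ?_⟩
    unfold expo
    rw [hmin]
    obtain ⟨s, rfl⟩ : ∃ s, r = s + 2 := ⟨r - 2, by omega⟩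
    obtain ⟨l, rfl⟩ : ∃ l, m = l + 1 := ⟨m - 1, by omega⟩
    obtain ⟨h1, h2⟩ := choose_id s l (by omega)
    simp only [Nat.add_sub_cancel]
    push_cast at hchpos hr2 ⊢
    have hm1 : ((s : ℝ) + 2) * ((s : ℝ) + 2 - 1) ≠ 0 := by
      apply mul_ne_zero
      · linarith
      · have : (0:ℝ) ≤ s := Nat.cast_nonneg s
        linarith
    have hk1 : ((l : ℝ) + 1) ≠ 0 := by positivity
    have hcne := hchpos.ne'
    have e1 : (s.choose (l + 1) : ℝ) = (s.choose l : ℝ) * ((s : ℝ) - l) / ((l : ℝ) + 1) := by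
      rw [eq_div_iff hk1]; exact h2
    have e2 : (s.choose l : ℝ) = ((s + 2).choose (l + 2) : ℝ) * ((l : ℝ) + 2) * ((l : ℝ) + 1) /
        (((s : ℝ) + 2) * ((s : ℝ) + 1)) := by
      rw [eq_div_iff (by positivity)]
      linear_combination -h1
    rw [e1, e2]
    have e3 : ((s : ℝ) + 2 - 1) = (s : ℝ) + 1 := by ring
    rw [e3]
    have hm2 : ((s : ℝ) + 2) ≠ 0 := by positivity
    have hm3 : ((s : ℝ) + 1) ≠ 0 := by positivity
    have hcne' : ((s + 2).choose (l + 2) : ℝ) ≠ 0 := hcne
    show _ = _ / ((s + 2).choose (l + 2) : ℝ)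
    field_simp
    ring

/-- The truncated inequality for hyperplanes in general position, over all extensions of all
degrees. -/
theorem result (k : Type) [Field k] [NumberField k] (m r : ℕ) (hm : 1 ≤ m) (hr : m + 1 ≤ r)
    (a : Fin r → Fin (m + 1) → k)
    (ha : ∀ I : Finset (Fin r), I.card = m + 1 → LinearIndependent k (fun i : I => a i)) :
    (∀ θ c δ : ℝ, 0 ≤ θ → θ < r → 0 < δ → expo m r θ < m + 1 ∧
      ∃ C : ℝ, 0 < C ∧ ∀ (K : Type) [Field K] [NumberField K] [Algebra k K] (B : ℝ), 1 ≤ B →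
        (Pts K a B).Finite ∧
        ((Exc K a θ c B).ncard : ℝ) ≤ (C * B ^ (expo m r θ + δ)) ^ Module.finrank ℚ K) ∧
    (∀ η : ℝ, 0 < η → ∃ C : ℝ, 0 < C ∧
      ∀ (K : Type) [Field K] [NumberField K] [Algebra k K] (B : ℝ), C * rootDisc K ^ 2 ≤ B →
        (C⁻¹ * B ^ ((m : ℝ) + 1 - η) * rootDisc K ^ (-(((m : ℝ) + 3) / 2 + η))) ^
          Module.finrank ℚ K ≤ ((Pts K a B).ncard : ℝ)) := by
  have hr2 : (2 : ℝ) ≤ r := by
    have : 2 ≤ r := by omega
    exact_mod_cast this
  have hm1 : (1 : ℝ) ≤ m := by exact_mod_cast hm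
  have hgp : GenPos a := ha
  have ha0 := fun i => hgp.ne_zero hr i
  refine ⟨fun θ c δ hθ hθr hδ => ⟨?_, ?_⟩, ?_⟩
  · refine lt_of_le_of_lt (min_le_right _ _) ?_
    have h1 : 0 < (m : ℝ) * ((r : ℝ) - θ) / ((r : ℝ) * ((r : ℝ) - 1)) := by
      apply div_pos
      · apply mul_pos <;> linarith
      · apply mul_pos <;> linarith
    nlinarith
  · obtain ⟨α, β, hα, hβ, hg, he⟩ := expo_form hm hr θ
    obtain ⟨A, hA, h⟩ := count_unif hgp hr θ |c| hθ (abs_nonneg c) hα hβ hg hδ
    refine ⟨Real.exp A, Real.exp_pos _, ?_⟩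
    intro K _ _ _ B hB
    have hB0 : 0 < B := by linarith
    have hlB : 0 ≤ Real.log B := Real.log_nonneg hB
    have hn := n_pos (K := K)
    refine ⟨fin_Pts a B, ?_⟩
    refine (fin_of_bdd _ _ fun F hF => ?_).2
    have h1 := h K (Real.log B) hlB F (by
      intro P hP
      obtain ⟨⟨g1, g2⟩, S, g3⟩ := hF (Finset.mem_coe.2 hP)
      have g4 : (Module.finrank ℚ K : ℝ) * height P = Real.log (mulHeight P.rep) := height_mul P
      refine ⟨g1, ?_, ?_⟩
      · rw [← g4]
        exact mul_le_mul_of_nonneg_left g2 hn.le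
      · have g5 := N1_le S (fun i => up_ne_zero (K := K) (ha0 i)) P.rep_nonzero g1
        have g6 : (Module.finrank ℚ K : ℝ) *
            (truncated S (baseChange K a) P + (∑ v ∈ S, logNorm v) / Module.finrank ℚ K) ≤
            Module.finrank ℚ K * (θ * height P + c) := mul_le_mul_of_nonneg_left g3 hn.le
        rw [mul_add, trunc_mul, mul_div_cancel₀ _ hn.ne'] at g6
        have g7 : N1 S (baseChange K a) P.rep = N1 S (up K a) P.rep := rfl
        have g8 : ∑ v ∈ S, logNorm v = ∑ v ∈ S, Real.log (NN v) := rfl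
        rw [g7, g8] at g6
        have g9 : (Module.finrank ℚ K : ℝ) * c ≤ Module.finrank ℚ K * |c| :=
          mul_le_mul_of_nonneg_left (le_abs_self c) hn.le
        have g10 : (Module.finrank ℚ K : ℝ) * (θ * height P + c) =
            θ * ((Module.finrank ℚ K : ℝ) * height P) + Module.finrank ℚ K * c := by ring
        rw [g10, g4] at g6
        linarith)
    refine h1.trans (le_of_eq ?_)
    rw [← he, Real.rpow_def_of_pos hB0, ← Real.exp_add, ← Real.exp_nat_mul]
    congr 2
    ring
  · intro η hη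
    obtain ⟨m', rfl⟩ : ∃ m', m = m' + 1 := ⟨m - 1, by omega⟩
    obtain ⟨A, hA, h⟩ := low_points (k := k) ha0 (ε := min (1 / 8) (η / 4)) (by positivity)
      (min_le_left _ _)
    have hε0 : 0 < min (1 / 8 : ℝ) (η / 4) := by positivity
    have hε4 : min (1 / 8 : ℝ) (η / 4) ≤ η / 4 := min_le_right _ _
    set ε := min (1 / 8 : ℝ) (η / 4) with hε
    refine ⟨Real.exp A, Real.exp_pos _, ?_⟩
    intro K _ _ _ B hB
    have hn := n_pos (K := K)
    have hrd := Pool.Agent.Y733.UD.rd_nonneg K
    have hδ : rootDisc K = Real.exp (Pool.Agent.Y733.UD.rd K) := by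
      unfold rootDisc Pool.Agent.Y733.UD.rd
      have h0 : 0 < |(NumberField.discr K : ℝ)| := by
        have := Pool.Agent.Y733.UD.one_le_disc K
        linarith
      rw [Real.rpow_def_of_pos h0]
      congr 1
      ring
    have hB0 : 0 < B := lt_of_lt_of_le (by rw [hδ]; positivity) hB
    have hBlog : 2 * Pool.Agent.Y733.UD.rd K + A ≤ Real.log B := by
      have h1 : Real.exp A * rootDisc K ^ 2 = Real.exp (2 * Pool.Agent.Y733.UD.rd K + A) := by
        rw [hδ, ← Real.exp_nat_mul, ← Real.exp_add]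
        congr 1
        push_cast
        ring
      rw [h1] at hB
      rwa [Real.le_log_iff_exp_le hB0]
    obtain ⟨PP, hPP, hc⟩ := h K (Real.log B) hBlog
    have hsub : (PP : Set (ℙ K (Fin (m' + 1 + 1) → K))) ⊆ Pts K a B := by
      intro P hP
      obtain ⟨g1, g2⟩ := hPP P (Finset.mem_coe.1 hP)
      refine ⟨g1, ?_⟩
      rw [← height_mul P] at g2
      exact le_of_mul_le_mul_left g2 hn
    have h2 : ((PP : Set (ℙ K (Fin (m' + 1 + 1) → K))).ncard : ℝ) ≤ ((Pts K a B).ncard : ℝ) := by
      exact_mod_cast Set.ncard_le_ncard hsub (fin_Pts a B)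
    rw [Set.ncard_coe_finset] at h2
    refine le_trans ?_ h2
    refine le_trans ?_ hc
    have hlB : 0 ≤ Real.log B := by linarith
    rw [hδ, ← Real.exp_neg, Real.rpow_def_of_pos hB0, ← Real.exp_mul, ← Real.exp_add,
      ← Real.exp_add, ← Real.exp_nat_mul]
    apply Real.exp_le_exp.2
    apply mul_le_mul_of_nonneg_left _ hn.le
    push_cast
    have h5 : 4 * ε * Real.log B ≤ η * Real.log B := mul_le_mul_of_nonneg_right (by linarith) hlB
    have h6 : ε * Pool.Agent.Y733.UD.rd K ≤ η * Pool.Agent.Y733.UD.rd K :=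
      mul_le_mul_of_nonneg_right (by linarith) hrd
    nlinarith

end Pool.Agent.Results.MP_9ec3f0_nt.AllFieldsAllDegrees
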