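import Pool.Agent.R366.NF.Final

/-!
# Vojta's conjecture with truncated counting function, over any number field, on varieties birational
# to projective space, for almost all rational points

`K` is a number field, `D` the divisor `∏ F_j = 0` of `ℙⁿ` over `K`, with arbitrary singularities and
intersections, its components `F_j = 0` being irreducible over `K` of degree `k_j`. A component has
weight `m_j = k_j` if it is a hyperplane or a quadric; weight `m_j` if it is geometrically a union of
conjugate hyperplanes (`F_j` is a norm form) whose intersection has codimension `m_j`; each component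
has weight one.

For each `θ < ∑ m_j` all but `O(B ^ (n + 1 - c))` of the points `P` of `ℙⁿ(K)` of relative height at
most `B` satisfy

  `N¹_S(D, P) ≥ θ log B + Λ ∑ h_{(F'_l, G'_l)}(P)`,

where `h_{(F', G')}` is the height relative to the ideal `(F', G')` of codimension two and `Λ` is as
large as we like. On a variety `X` birational to `ℙⁿ` the heights of the divisors contracted in `ℙⁿ`
are bounded by multiples of such heights. As `h_{K + D} = (∑ k_j - n - 1) h` on `ℙⁿ`, we obtain the
conjectured inequality for almost all `K`-rational points of all smooth `X` birational to `ℙⁿ` if the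
sum of the `k_j - m_j` is at most `n`.
-/

set_option autoImplicit false

namespace Pool.Agent.Results.MP_9ec3f0_nt.BirationalToProjectiveSpace

open MvPolynomial NumberField IsDedekindDomain
open scoped LinearAlgebra.Projectivization

variable {K : Type} [Field K] [NumberField K] {n q : ℕ}

/-- `F` is, up to a constant factor, the norm form of `∑ α i * x i` from an extension `E` of `K`, and
`m` of the `α i` are linearly independent over `K`. -/
def IsNormForm (F : MvPolynomial (Fin (n + 1)) (𝓞 K)) (m : ℕ) : Prop :=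
  ∃ (E : Type) (_ : Field E) (_ : NumberField E) (_ : Algebra K E) (c : K) (α : Fin (n + 1) → E)
    (J : Finset (Fin (n + 1))), c ≠ 0 ∧ J.card = m ∧
      LinearIndependent K (fun j : J => α j) ∧
      ∀ x : Fin (n + 1) → 𝓞 K, ((eval x F : 𝓞 K) : K) =
        c * Algebra.norm K (∑ i, algebraMap K E (x i) * α i)

open Classical in
/-- The truncated counting function `N¹_S(D, P)` at the point `P` with coordinates `x`: the sum of
`log N(v)` over the primes `v` of `K`, not above `S`, with `|F_j(x)|_v < |x|_v ^ k_j` for some `j`. -/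
noncomputable def truncatedCount (S : Finset ℕ) (F : Fin q → MvPolynomial (Fin (n + 1)) (𝓞 K))
    (k : Fin q → ℕ) (x : Fin (n + 1) → K) : ℝ :=
  ∑ᶠ v : HeightOneSpectrum (𝓞 K), if (∀ p ∈ S, (p : 𝓞 K) ∉ v.asIdeal) ∧
      ∃ j, FinitePlace.mk v (aeval x (F j)) < (⨆ i, FinitePlace.mk v (x i)) ^ k j
    then Real.log (Ideal.absNorm v.asIdeal) else 0

/-- the local height relative to the ideal `(F, G)`, `F` and `G` forms of degrees `k` and `e` -/
noncomputable def idealLoc (F G : MvPolynomial (Fin (n + 1)) (𝓞 K)) (k e : ℕ)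
    (x : Fin (n + 1) → K) (v : K → ℝ) : ℝ :=
  - Real.log (max (v (aeval x F) / (⨆ i, v (x i)) ^ k) (v (aeval x G) / (⨆ i, v (x i)) ^ e))

/-- the height relative to the ideal `(F, G)`, `F` and `G` forms of degrees `k` and `e` -/
noncomputable def idealHeight (F G : MvPolynomial (Fin (n + 1)) (𝓞 K)) (k e : ℕ)
    (x : Fin (n + 1) → K) : ℝ :=
  ∑ w : InfinitePlace K, w.mult * idealLoc F G k e x w +
    ∑ᶠ v : FinitePlace K, idealLoc F G k e x v

/-- **The truncated counting function at almost all rational points, over any number field.** -/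
theorem result (K : Type) [Field K] [NumberField K] (n q : ℕ)
    (F : Fin q → MvPolynomial (Fin (n + 1)) (𝓞 K)) (k m : Fin q → ℕ)
    (hhom : ∀ j, (F j).IsHomogeneous (k j))
    (hirr : ∀ j, Irreducible (map (algebraMap (𝓞 K) K) (F j)))
    (hdist : ∀ i j, i ≠ j →
      ¬ Associated (map (algebraMap (𝓞 K) K) (F i)) (map (algebraMap (𝓞 K) K) (F j)))
    (hm : ∀ j, m j ≤ 1 ∨ (m j ≤ k j ∧ k j ≤ 2) ∨ IsNormForm (F j) (m j))
    (S : Finset ℕ) (hS : ∀ p ∈ S, p.Prime)
    (t : ℕ) (F' G' : Fin t → MvPolynomial (Fin (n + 1)) (𝓞 K)) (k' e' : Fin t → ℕ)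
    (hF' : ∀ l, (F' l).IsHomogeneous (k' l)) (hG' : ∀ l, (G' l).IsHomogeneous (e' l))
    (hirr' : ∀ l, Irreducible (map (algebraMap (𝓞 K) K) (F' l)))
    (hcop : ∀ l, ¬ map (algebraMap (𝓞 K) K) (F' l) ∣ map (algebraMap (𝓞 K) K) (G' l))
    (Λ : ℝ) (hΛ : 0 ≤ Λ) (θ : ℝ) (hθ : θ < ∑ j, (m j : ℝ)) :
    ∃ c : ℝ, 0 < c ∧ ∃ C : ℝ, ∀ B : ℕ, 1 ≤ B → ∃ Z : Finset (ℙ K (Fin (n + 1) → K)),
      (Z.card : ℝ) ≤ C * (B : ℝ) ^ ((n : ℝ) + 1 - c) ∧
      ∀ P : ℙ K (Fin (n + 1) → K), P.mulHeight ≤ B → P ∉ Z →
        (∀ j, aeval P.rep (F j) ≠ 0) ∧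
        θ * Real.log B + Λ * ∑ l, idealHeight (F' l) (G' l) (k' l) (e' l) P.rep ≤
          truncatedCount S F k P.rep :=
  R366.NF.main_points F k m hhom hirr hdist hm S hS F' G' k' e' hF' hG' hirr' hcop Λ hΛ θ hθ

end Pool.Agent.Results.MP_9ec3f0_nt.BirationalToProjectiveSpace
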