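import Pool.Agent.R366.QD.Main

/-!
# Vojta's conjecture with truncated counting function on quadrics over number fields, for almost all
# rational points

`K` is a number field, `X` the quadric `Q = 0` in `ℙⁿ` over `K`, where `Q = ∑ A_ij x_i x_j` has rank at
least five (for instance a smooth quadric of dimension at least three), so that `K_X` is
`- (n - 1)` times the hyperplane section. `X` has about `B ^ (n - 1)` rational points of height at
most `B`, if it has any.

`D` is the divisor `∏ F_j = 0` on `X`, the `F_j` being irreducible forms over `K` of degree `k_j`. Any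
number of hyperplane sections is allowed, and also sections with other hypersurfaces that depend on
few linear forms: for all `i` and `j` the form `Q` must have rank at least two on the linear space of
the vectors along which `F_i` and `F_j` are constant. (If `Q` has rank at least six this is automatic
for hyperplanes; if `Q` has rank five it holds for two hyperplane sections with normal crossings.)
A component has weight `m_j = k_j` if `F_j` is linear or quadratic, weight `m_j` if `F_j` is the norm
form of a linear form with `m_j` linearly independent coefficients, and each component has weight one.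

For each `θ < ∑ m_j` all but `O(B ^ (n - 1 - c))` of the points `P` of `X(K)` of relative height at
most `B` satisfy

  `N¹_S(D, P) ≥ θ log B + Λ ∑ h_{(F'_l, G'_l)}(P)`,

where `h_{(F', G')}` is the height relative to the ideal `(F', G')` (of a linear section of codimension
two, for instance), for the points on blow-ups of `X`. As `h_{K_X + D} = (∑ k_j - n + 1) h`, this is the
conjectured inequality for almost all rational points of `X` if the sum of the `k_j - m_j` is at most
`n - 1`, for instance for all unions of hyperplane sections.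
-/

set_option autoImplicit false

namespace Pool.Agent.Results.MP_9ec3f0_nt.Quadrics

open MvPolynomial NumberField IsDedekindDomain
open scoped LinearAlgebra.Projectivization

variable {K : Type} [Field K] [NumberField K] {n q : ℕ}

/-- The quadratic form `∑ A_ij x_i x_j` has rank at least `r` on the linear space `W`: there are `r`
pairwise orthogonal nonisotropic vectors in `W`. -/
def RankGe (A : Fin (n + 1) → Fin (n + 1) → 𝓞 K) (W : Set (Fin (n + 1) → K)) (r : ℕ) : Prop :=
  ∃ w : Fin r → Fin (n + 1) → K, (∀ a, w a ∈ W) ∧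
    (∀ a, ∑ i, ∑ j, (A i j : K) * w a i * w a j ≠ 0) ∧
    ∀ a b, a ≠ b → ∑ i, ∑ j, (A i j : K) * w a i * w b j = 0

/-- `F` is constant along the vector `w`. -/
def Along (F : MvPolynomial (Fin (n + 1)) (𝓞 K)) (w : Fin (n + 1) → K) : Prop :=
  ∀ (c : K) (x : Fin (n + 1) → K), aeval (x + c • w) F = aeval x F

/-- `F` is, up to a constant factor, the norm form of `∑ α i * x i` from an extension `E` of `K`, and
`m` of the `α i` are linearly independent over `K`. -/
def IsNormForm (F : MvPolynomial (Fin (n + 1)) (𝓞 K)) (m : ℕ) : Prop :=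
  ∃ (E : Type) (_ : Field E) (_ : NumberField E) (_ : Algebra K E) (c : K) (α : Fin (n + 1) → E)
    (J : Finset (Fin (n + 1))), c ≠ 0 ∧ J.card = m ∧
      LinearIndependent K (fun j : J => α j) ∧
      ∀ x : Fin (n + 1) → 𝓞 K, ((eval x F : 𝓞 K) : K) =
        c * Algebra.norm K (∑ i, algebraMap K E (x i) * α i)

open Classical in
/-- The truncated counting function `N¹_S(D, P)` at the point `P` with coordinates `x`: the sum of
`log N(v)` over the primes `v` of `K`, not above `S`, with `|F_j(x)|_v < |x|_v ^ k_j` for some `j`. -/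
noncomputable def truncatedCount (S : Finset ℕ) (F : Fin q → MvPolynomial (Fin (n + 1)) (𝓞 K))
    (k : Fin q → ℕ) (x : Fin (n + 1) → K) : ℝ :=
  ∑ᶠ v : HeightOneSpectrum (𝓞 K), if (∀ p ∈ S, (p : 𝓞 K) ∉ v.asIdeal) ∧
      ∃ j, FinitePlace.mk v (aeval x (F j)) < (⨆ i, FinitePlace.mk v (x i)) ^ k j
    then Real.log (Ideal.absNorm v.asIdeal) else 0

/-- the local height relative to the ideal `(F, G)`, `F` and `G` forms of degrees `k` and `e` -/
noncomputable def idealLoc (F G : MvPolynomial (Fin (n + 1)) (𝓞 K)) (k e : ℕ)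
    (x : Fin (n + 1) → K) (v : K → ℝ) : ℝ :=
  - Real.log (max (v (aeval x F) / (⨆ i, v (x i)) ^ k) (v (aeval x G) / (⨆ i, v (x i)) ^ e))

/-- the height relative to the ideal `(F, G)`, `F` and `G` forms of degrees `k` and `e` -/
noncomputable def idealHeight (F G : MvPolynomial (Fin (n + 1)) (𝓞 K)) (k e : ℕ)
    (x : Fin (n + 1) → K) : ℝ :=
  ∑ w : InfinitePlace K, w.mult * idealLoc F G k e x w +
    ∑ᶠ v : FinitePlace K, idealLoc F G k e x v

/-- **The truncated counting function at almost all rational points of a quadric.** -/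
theorem result (K : Type) [Field K] [NumberField K] (n q : ℕ)
    (A : Fin (n + 1) → Fin (n + 1) → 𝓞 K) (hA : ∀ i j, A i j = A j i)
    (hrank : RankGe A Set.univ 5)
    (F : Fin q → MvPolynomial (Fin (n + 1)) (𝓞 K)) (k m : Fin q → ℕ)
    (hhom : ∀ j, (F j).IsHomogeneous (k j))
    (hirr : ∀ j, Irreducible (map (algebraMap (𝓞 K) K) (F j)))
    (hdist : ∀ i j, i ≠ j →
      ¬ Associated (map (algebraMap (𝓞 K) K) (F i)) (map (algebraMap (𝓞 K) K) (F j)))
    (hm : ∀ j, m j ≤ 1 ∨ (m j ≤ k j ∧ k j ≤ 2) ∨ IsNormForm (F j) (m j))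
    (hpair : ∀ i j, RankGe A {w | Along (F i) w ∧ Along (F j) w} 2)
    (S : Finset ℕ) (hS : ∀ p ∈ S, p.Prime)
    (t : ℕ) (F' G' : Fin t → MvPolynomial (Fin (n + 1)) (𝓞 K)) (k' e' : Fin t → ℕ)
    (hF' : ∀ l, (F' l).IsHomogeneous (k' l)) (hG' : ∀ l, (G' l).IsHomogeneous (e' l))
    (hirr' : ∀ l, Irreducible (map (algebraMap (𝓞 K) K) (F' l)))
    (hcop : ∀ l, ¬ map (algebraMap (𝓞 K) K) (F' l) ∣ map (algebraMap (𝓞 K) K) (G' l))
    (hideal : ∀ l, RankGe A {w | Along (F' l) w ∧ Along (G' l) w} 2)
    (Λ : ℝ) (hΛ : 0 ≤ Λ) (θ : ℝ) (hθ : θ < ∑ j, (m j : ℝ)) :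
    ∃ c : ℝ, 0 < c ∧ ∃ C : ℝ, ∀ B : ℕ, 1 ≤ B → ∃ Z : Finset (ℙ K (Fin (n + 1) → K)),
      (Z.card : ℝ) ≤ C * (B : ℝ) ^ ((n : ℝ) - 1 - c) ∧
      ∀ P : ℙ K (Fin (n + 1) → K), ∑ i, ∑ j, (A i j : K) * P.rep i * P.rep j = 0 →
        P.mulHeight ≤ B → P ∉ Z →
        (∀ j, aeval P.rep (F j) ≠ 0) ∧
        θ * Real.log B + Λ * ∑ l, idealHeight (F' l) (G' l) (k' l) (e' l) P.rep ≤
          truncatedCount S F k P.rep :=
  R366.QD.main_quadric hA hrank F k m hhom hirr hdist hm hpair S hS F' G' k' e' hF' hG' hirr' hcop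
    hideal Λ hΛ θ hθ

end Pool.Agent.Results.MP_9ec3f0_nt.Quadrics
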